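import Mathlib

set_option autoImplicit false

open MeasureTheory

namespace Pool.Agent.R271.PH

/-- The Euclidean space of dimension `d`. -/
abbrev E (d : ℕ) : Type := EuclideanSpace ℝ (Fin d)

/-- Real `n × d` matrices with the Frobenius norm. -/
abbrev Mat (n d : ℕ) : Type := EuclideanSpace ℝ (Fin n × Fin d)

/-- The `j`-th unit vector. -/
noncomputable def unit {d : ℕ} (j : Fin d) : E d := EuclideanSpace.single j (1 : ℝ)

/-- `A(ξ) = |ξ|^(p-2) ξ`, with `A(0) = 0`. -/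
noncomputable def fA (p : ℝ) {n d : ℕ} (ξ : Mat n d) : Mat n d := (‖ξ‖ ^ (p - 2)) • ξ

/-- `V(ξ) = |ξ|^((p-2)/2) ξ`, with `V(0) = 0`. -/
noncomputable def fV (p : ℝ) {n d : ℕ} (ξ : Mat n d) : Mat n d := (‖ξ‖ ^ ((p - 2) / 2)) • ξ

/-- `h` is p-harmonic on the open set `Ω`, with weak gradient `G`: `h` and `G` are locally in
`L^p`, `G` is the distributional gradient of `h`, and `div A(G) = 0` weakly on `Ω`. -/
structure IsPHarmonic (p : ℝ) {n d : ℕ} (Ω : Set (E d)) (h : E d → E n) (G : E d → Mat n d) :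
    Prop where
  memLp : ∀ K : Set (E d), K ⊆ Ω → IsCompact K →
    MemLp h (ENNReal.ofReal p) (volume.restrict K) ∧
    MemLp G (ENNReal.ofReal p) (volume.restrict K)
  weakGrad : ∀ φ : E d → ℝ, ContDiff ℝ (⊤ : ℕ∞) φ → HasCompactSupport φ → tsupport φ ⊆ Ω →
    ∀ (i : Fin n) (j : Fin d),
      ∫ x in Ω, h x i * fderiv ℝ φ x (unit j) = -∫ x in Ω, G x (i, j) * φ x
  weakEq : ∀ φ : E d → E n, ContDiff ℝ (⊤ : ℕ∞) φ → HasCompactSupport φ → tsupport φ ⊆ Ω →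
    ∫ x in Ω, ∑ i : Fin n, ∑ j : Fin d, fA p (G x) (i, j) * (fderiv ℝ φ x (unit j)) i = 0

/-- `W` has a continuously differentiable representative on `Ω`. -/
def HasC1Rep {n d : ℕ} (Ω : Set (E d)) (W : E d → Mat n d) : Prop :=
  ∃ W' : E d → Mat n d, ContDiffOn ℝ 1 W' Ω ∧ ∀ᵐ x ∂(volume.restrict Ω), W' x = W x

/-- The mean oscillation `(⨍_B |W - ⟨W⟩_B|^2)^(1/2)` over the ball with centre `x`, radius `r`. -/
noncomputable def osc {n d : ℕ} (W : E d → Mat n d) (x : E d) (r : ℝ) : ℝ :=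
  (⨍ y in Metric.ball x r, ‖W y - ⨍ z in Metric.ball x r, W z‖ ^ 2) ^ (1 / 2 : ℝ)

/-- Linear decay of the mean oscillation on all balls in `Ω`. -/
def LinearDecay {n d : ℕ} (Ω : Set (E d)) (W : E d → Mat n d) : Prop :=
  ∃ c : ℝ, ∀ (x : E d) (r θ : ℝ), 0 < r → Metric.ball x r ⊆ Ω → 0 < θ → θ ≤ 1 →
    osc W x (θ * r) ≤ c * θ * osc W x r

end Pool.Agent.R271.PH
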