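import Pool.Agent.R271.PH.Stm

/-!
# The derivative of `U` and the continuity of `DU`
-/

set_option autoImplicit false

open MeasureTheory Filter Topology Asymptotics

namespace Pool.Agent.R271.PH

namespace DerivAux

lemma abs_le {d : ℕ} (x : E d) (i : Fin d) : |x i| ≤ ‖x‖ := by
  have := PiLp.norm_apply_le x i
  rwa [Real.norm_eq_abs] at this

lemma inner_sum {d : ℕ} (x y : E d) : inner ℝ x y = ∑ k, x k * y k := by
  rw [PiLp.inner_apply]
  apply Finset.sum_congr rfl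
  intro k _
  simp [mul_comm]

/-- the derivative away from the origin -/
lemma deriv_ne {d : ℕ} (a : ℝ) (i j : Fin d) (x : E d) (hx : x ≠ 0) :
    HasFDerivAt (U a i j)
      (∑ k, DU a i j k x • (EuclideanSpace.proj k : E d →L[ℝ] ℝ)) x := by
  have hs : ‖x‖ ^ 2 ≠ 0 := pow_ne_zero 2 (norm_ne_zero_iff.2 hx)
  have h0 : HasFDerivAt (fun x : E d => ‖x‖ ^ 2) (2 • innerSL ℝ x) x :=
    (hasStrictFDerivAt_norm_sq x).hasFDerivAt
  have h1 := h0.rpow_const (p := a) (Or.inl hs)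
  have h2 := h0.rpow_const (p := a + 1) (Or.inl hs)
  have hi : HasFDerivAt (fun x : E d => x i) (EuclideanSpace.proj i : E d →L[ℝ] ℝ) x :=
    (EuclideanSpace.proj i : E d →L[ℝ] ℝ).hasFDerivAt
  have hj : HasFDerivAt (fun x : E d => x j) (EuclideanSpace.proj j : E d →L[ℝ] ℝ) x :=
    (EuclideanSpace.proj j : E d →L[ℝ] ℝ).hasFDerivAt
  have h3 := ((h1.mul hi).mul hj).sub (h2.const_mul (if i = j then (1 : ℝ) / d else 0))
  refine h3.congr_fderiv ?_
  ext y
  have hin := inner_sum x y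
  simp only [ContinuousLinearMap.sub_apply, ContinuousLinearMap.add_apply,
    ContinuousLinearMap.smul_apply, innerSL_apply_apply, smul_eq_mul, nsmul_eq_mul, hin,
    ContinuousLinearMap.sum_apply, PiLp.proj_apply, add_sub_cancel_right, Pi.mul_apply]
  have e1 : ∑ k, DU a i j k x * y k = 2 * a * (‖x‖ ^ 2) ^ (a - 1) * x i * x j * (∑ k, x k * y k)
      + (‖x‖ ^ 2) ^ a * (x j * y i + x i * y j)
      - (if i = j then (1 : ℝ) / d else 0) * (2 * (a + 1)) * (‖x‖ ^ 2) ^ a *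
        (∑ k, x k * y k) := by
    have e2 : ∀ k, DU a i j k x * y k =
        2 * a * (‖x‖ ^ 2) ^ (a - 1) * x i * x j * (x k * y k)
        + ((‖x‖ ^ 2) ^ a * x j * (if i = k then y k else 0)
        + (‖x‖ ^ 2) ^ a * x i * (if j = k then y k else 0))
        - (if i = j then (1 : ℝ) / d else 0) * (2 * (a + 1)) * (‖x‖ ^ 2) ^ a *
        (x k * y k) := by
      intro k
      rw [DU]
      split_ifs <;> ring
    rw [Finset.sum_congr rfl (fun k _ => e2 k), Finset.sum_sub_distrib, Finset.sum_add_distrib,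
      Finset.sum_add_distrib, ← Finset.mul_sum, ← Finset.mul_sum, ← Finset.mul_sum,
      ← Finset.mul_sum, Finset.sum_ite_eq, Finset.sum_ite_eq, if_pos (Finset.mem_univ _),
      if_pos (Finset.mem_univ _)]
    ring
  rw [e1]
  push_cast
  ring

/-- `s ^ (a + 1) = ‖x‖ * (‖x‖ * s ^ a)` -/
lemma pow_split {d : ℕ} (a : ℝ) (ha : 0 < a) (x : E d) :
    (‖x‖ ^ 2) ^ (a + 1) = ‖x‖ * (‖x‖ * (‖x‖ ^ 2) ^ a) := by
  rcases eq_or_ne x 0 with rfl | hx
  · rw [norm_zero]
    simp [Real.zero_rpow (by linarith : a + 1 ≠ 0)]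
  · have hs : 0 < ‖x‖ ^ 2 := by positivity
    rw [Real.rpow_add_one hs.ne']
    ring

lemma mul_le {d : ℕ} (x : E d) (i j : Fin d) : |x i * x j| ≤ ‖x‖ ^ 2 := by
  rw [abs_mul, sq]
  exact mul_le_mul (abs_le x i) (abs_le x j) (abs_nonneg _) (norm_nonneg _)

lemma pow_mul_sq {d : ℕ} (a : ℝ) (ha : 0 < a) (x : E d) :
    (‖x‖ ^ 2) ^ a * ‖x‖ ^ 2 = (‖x‖ ^ 2) ^ (a + 1) := by
  rw [pow_split a ha]
  ring

lemma coef_le (d : ℕ) (P : Prop) [Decidable P] : |(if P then (1 : ℝ) / d else 0)| ≤ 1 := by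
  split_ifs
  · rw [abs_of_nonneg (by positivity)]
    rcases Nat.eq_zero_or_pos d with h | h
    · subst h
      simp
    · rw [div_le_one (by exact_mod_cast h)]
      exact_mod_cast h
  · simp

lemma U_bound {d : ℕ} (a : ℝ) (ha : 0 < a) (i j : Fin d) (x : E d) :
    |U a i j x| ≤ 2 * (‖x‖ ^ 2) ^ (a + 1) := by
  have hp : 0 ≤ (‖x‖ ^ 2) ^ a := Real.rpow_nonneg (by positivity) _
  have hp1 : 0 ≤ (‖x‖ ^ 2) ^ (a + 1) := Real.rpow_nonneg (by positivity) _
  have h1 : |(‖x‖ ^ 2) ^ a * x i * x j| ≤ (‖x‖ ^ 2) ^ (a + 1) := by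
    rw [mul_assoc, abs_mul, abs_of_nonneg hp, ← pow_mul_sq a ha x]
    exact mul_le_mul_of_nonneg_left (mul_le x i j) hp
  have h2 : |(if i = j then (1 : ℝ) / d else 0) * (‖x‖ ^ 2) ^ (a + 1)| ≤
      (‖x‖ ^ 2) ^ (a + 1) := by
    rw [abs_mul, abs_of_nonneg hp1]
    exact mul_le_of_le_one_left hp1 (coef_le d _)
  calc |U a i j x| ≤ |(‖x‖ ^ 2) ^ a * x i * x j| +
        |(if i = j then (1 : ℝ) / d else 0) * (‖x‖ ^ 2) ^ (a + 1)| := abs_sub _ _
    _ ≤ 2 * (‖x‖ ^ 2) ^ (a + 1) := by linarith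

lemma tendsto_aux {d : ℕ} (a : ℝ) (ha : 0 < a) :
    Tendsto (fun x : E d => ‖x‖ * (‖x‖ ^ 2) ^ a) (𝓝 0) (𝓝 0) := by
  have hc : Continuous (fun x : E d => ‖x‖ * (‖x‖ ^ 2) ^ a) :=
    continuous_norm.mul ((continuous_norm.pow 2).rpow_const (fun x => Or.inr ha.le))
  have := hc.tendsto (0 : E d)
  simpa using this

lemma DU_zero {d : ℕ} (a : ℝ) (i j k : Fin d) : DU a i j k (0 : E d) = 0 := by
  simp [DU]

/-- the derivative at the origin -/
lemma deriv_zero {d : ℕ} (a : ℝ) (ha : 0 < a) (i j : Fin d) :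
    HasFDerivAt (U a i j)
      (∑ k, DU a i j k (0 : E d) • (EuclideanSpace.proj k : E d →L[ℝ] ℝ)) 0 := by
  have h0 : (∑ k, DU a i j k (0 : E d) • (EuclideanSpace.proj k : E d →L[ℝ] ℝ)) = 0 := by
    apply Finset.sum_eq_zero
    intro k _
    rw [DU_zero, zero_smul]
  rw [h0, hasFDerivAt_iff_isLittleO_nhds_zero]
  have hU0 : U a i j (0 : E d) = 0 := by
    have := U_bound a ha i j (0 : E d)
    have h1 : (‖(0 : E d)‖ ^ 2) ^ (a + 1) = 0 := by
      simp [Real.zero_rpow (by linarith : a + 1 ≠ 0)]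
    rw [h1, mul_zero] at this
    exact abs_nonpos_iff.1 this
  have h1 : (fun h : E d => U a i j (0 + h) - U a i j (0 : E d) - (0 : E d →L[ℝ] ℝ) h) =
      U a i j := by
    funext h
    rw [zero_add, hU0, sub_zero, ContinuousLinearMap.zero_apply, sub_zero]
  rw [h1]
  have h2 : (U a i j) =O[𝓝 (0 : E d)] (fun x : E d => ‖x‖ * (‖x‖ * (‖x‖ ^ 2) ^ a)) := by
    apply IsBigO.of_bound 2
    refine Eventually.of_forall (fun x => ?_)
    rw [Real.norm_eq_abs, ← pow_split a ha, Real.norm_eq_abs,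
      abs_of_nonneg (Real.rpow_nonneg (by positivity) _)]
    exact U_bound a ha i j x
  have h3 : (fun x : E d => ‖x‖ * (‖x‖ * (‖x‖ ^ 2) ^ a)) =o[𝓝 (0 : E d)]
      (fun x : E d => ‖x‖ * 1) :=
    (isBigO_refl (fun x : E d => ‖x‖) (𝓝 0)).mul_isLittleO
      ((isLittleO_one_iff ℝ).2 (tendsto_aux a ha))
  have h4 := h2.trans_isLittleO h3
  simp only [mul_one] at h4
  exact h4.of_norm_right

lemma DU_bound {d : ℕ} (a : ℝ) (ha : 0 < a) (i j k : Fin d) (x : E d) :
    |DU a i j k x| ≤ (4 * a + 4) * (‖x‖ * (‖x‖ ^ 2) ^ a) := by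
  rcases eq_or_ne x 0 with rfl | hx
  · rw [DU_zero]
    simp
  have hs : 0 < ‖x‖ ^ 2 := by positivity
  have hp : 0 ≤ (‖x‖ ^ 2) ^ a := Real.rpow_nonneg (by positivity) _
  have hp1 : 0 ≤ (‖x‖ ^ 2) ^ (a - 1) := Real.rpow_nonneg (by positivity) _
  have hn := norm_nonneg x
  have e1 : (‖x‖ ^ 2) ^ (a - 1) * ‖x‖ ^ 2 = (‖x‖ ^ 2) ^ a := by
    rw [← Real.rpow_add_one hs.ne']
    congr 1
    ring
  have h1 : |2 * a * (‖x‖ ^ 2) ^ (a - 1) * x k * x i * x j| ≤
      2 * a * (‖x‖ * (‖x‖ ^ 2) ^ a) := by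
    have e2 : 2 * a * (‖x‖ ^ 2) ^ (a - 1) * x k * x i * x j =
        (2 * a * (‖x‖ ^ 2) ^ (a - 1)) * (x k * (x i * x j)) := by ring
    rw [e2, abs_mul, abs_of_nonneg (by positivity), abs_mul]
    calc 2 * a * (‖x‖ ^ 2) ^ (a - 1) * (|x k| * |x i * x j|)
        ≤ 2 * a * (‖x‖ ^ 2) ^ (a - 1) * (‖x‖ * ‖x‖ ^ 2) := by
          apply mul_le_mul_of_nonneg_left _ (by positivity)
          exact mul_le_mul (abs_le x k) (mul_le x i j) (abs_nonneg _) hn
      _ = 2 * a * (‖x‖ * (‖x‖ ^ 2) ^ a) := by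
          rw [← e1]
          ring
  have h2 : |(‖x‖ ^ 2) ^ a * ((if i = k then x j else 0) + (if j = k then x i else 0))| ≤
      2 * (‖x‖ * (‖x‖ ^ 2) ^ a) := by
    rw [abs_mul, abs_of_nonneg hp]
    have h3 : |(if i = k then x j else 0) + (if j = k then x i else 0)| ≤ 2 * ‖x‖ := by
      refine (abs_add_le _ _).trans ?_
      have h4 : |(if i = k then x j else 0)| ≤ ‖x‖ := by
        split_ifs
        · exact abs_le x j
        · simpa using hn
      have h5 : |(if j = k then x i else 0)| ≤ ‖x‖ := by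
        split_ifs
        · exact abs_le x i
        · simpa using hn
      linarith
    calc (‖x‖ ^ 2) ^ a * |(if i = k then x j else 0) + (if j = k then x i else 0)|
        ≤ (‖x‖ ^ 2) ^ a * (2 * ‖x‖) := mul_le_mul_of_nonneg_left h3 hp
      _ = 2 * (‖x‖ * (‖x‖ ^ 2) ^ a) := by ring
  have h3 : |(if i = j then (1 : ℝ) / d else 0) * (2 * (a + 1)) * (‖x‖ ^ 2) ^ a * x k| ≤
      2 * (a + 1) * (‖x‖ * (‖x‖ ^ 2) ^ a) := by
    rw [abs_mul, abs_mul, abs_mul, abs_of_nonneg (by positivity : 0 ≤ 2 * (a + 1)),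
      abs_of_nonneg hp]
    calc |(if i = j then (1 : ℝ) / d else 0)| * (2 * (a + 1)) * (‖x‖ ^ 2) ^ a * |x k|
        ≤ 1 * (2 * (a + 1)) * (‖x‖ ^ 2) ^ a * ‖x‖ := by
          apply mul_le_mul _ (abs_le x k) (abs_nonneg _) (by positivity)
          apply mul_le_mul_of_nonneg_right _ hp
          exact mul_le_mul_of_nonneg_right (coef_le d _) (by positivity)
      _ = 2 * (a + 1) * (‖x‖ * (‖x‖ ^ 2) ^ a) := by ring
  rw [DU]
  refine (abs_sub _ _).trans ?_
  refine (add_le_add_left (abs_add_le _ _) _).trans ?_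
  linarith

lemma DU_cont {d : ℕ} (a : ℝ) (ha : 0 < a) (i j k : Fin d) :
    Continuous (DU a i j k : E d → ℝ) := by
  rw [continuous_iff_continuousAt]
  intro x
  rcases eq_or_ne x 0 with rfl | hx
  · rw [ContinuousAt, DU_zero]
    have h1 : Tendsto (fun x : E d => (4 * a + 4) * (‖x‖ * (‖x‖ ^ 2) ^ a)) (𝓝 0) (𝓝 0) := by
      have := (tendsto_aux (d := d) a ha).const_mul (4 * a + 4)
      rwa [mul_zero] at this
    exact squeeze_zero_norm (fun x => by
      rw [Real.norm_eq_abs]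
      exact DU_bound a ha i j k x) h1
  · have hs : ‖x‖ ^ 2 ≠ 0 := pow_ne_zero 2 (norm_ne_zero_iff.2 hx)
    have hn : ContinuousAt (fun x : E d => ‖x‖ ^ 2) x := (continuous_norm.pow 2).continuousAt
    have h1 : ContinuousAt (fun x : E d => (‖x‖ ^ 2) ^ (a - 1)) x :=
      hn.rpow_const (Or.inl hs)
    have h2 : ContinuousAt (fun x : E d => (‖x‖ ^ 2) ^ a) x := hn.rpow_const (Or.inl hs)
    have hc : ∀ l : Fin d, ContinuousAt (fun x : E d => x l) x := fun l =>
      (EuclideanSpace.proj l : E d →L[ℝ] ℝ).continuous.continuousAt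
    have h3 : ContinuousAt (fun x : E d => (if i = k then x j else 0) +
        (if j = k then x i else 0)) x := by
      apply ContinuousAt.add
      · split_ifs
        · exact hc j
        · exact continuousAt_const
      · split_ifs
        · exact hc i
        · exact continuousAt_const
    unfold DU
    exact ((((continuousAt_const.mul h1).mul (hc k)).mul (hc i)).mul (hc j)).add
      (h2.mul h3) |>.sub ((continuousAt_const.mul h2).mul (hc k))

end DerivAux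

theorem derivP : DerivP := by
  intro d a ha i j
  refine ⟨fun x => ?_, fun k => DerivAux.DU_cont a ha i j k⟩
  rcases eq_or_ne x 0 with rfl | hx
  · exact DerivAux.deriv_zero a ha i j
  · exact DerivAux.deriv_ne a i j x hx

end Pool.Agent.R271.PH
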