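import Pool.Agent.R271.PH.Stm

set_option autoImplicit false

open MeasureTheory

namespace Pool.Agent.R271.PH

namespace DivAux

/-- the linear identification -/
noncomputable def eL (d : ℕ) : (Fin d → ℝ) ≃L[ℝ] E d := (EuclideanSpace.equiv (Fin d) ℝ).symm

theorem eL_apply {d : ℕ} (y : Fin d → ℝ) (i : Fin d) : (eL d y) i = y i := rfl

theorem eL_single {d : ℕ} (k : Fin d) : eL d (Pi.single k 1) = unit k := by
  ext i
  rw [eL_apply]
  simp [unit, Pi.single_apply]

theorem integral_eL {d : ℕ} (G : E d → ℝ) : ∫ x, G x = ∫ y : Fin d → ℝ, G (eL d y) := by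
  have h := (EuclideanSpace.volume_preserving_symm_measurableEquiv_toLp (Fin d)).symm
  have h2 := h.integral_comp' (g := G)
  rw [← h2]
  rfl

theorem main (n : ℕ) (F : Fin (n + 1) → E (n + 1) → ℝ)
    (F' : Fin (n + 1) → E (n + 1) → (E (n + 1) →L[ℝ] ℝ))
    (hc : ∀ k, Continuous (F k))
    (hd : ∀ k, ∀ x : E (n + 1), x ≠ 0 → HasFDerivAt (F k) (F' k x) x)
    (hdiv : ∀ x : E (n + 1), ∑ k, F' k x (unit k) = 0)
    (φ : E (n + 1) → ℝ) (hφ : ContDiff ℝ (⊤ : ℕ∞) φ) (hs : HasCompactSupport φ) :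
    ∫ x, ∑ k, F k x * fderiv ℝ φ x (unit k) = 0 := by
  obtain ⟨R, hR0, hR⟩ : ∃ R : ℝ, 0 < R ∧ tsupport φ ⊆ Metric.ball 0 R :=
    hs.isCompact.isBounded.subset_ball_lt 0 0
  have hz : ∀ x : E (n + 1), R ≤ ‖x‖ → x ∉ tsupport φ := by
    intro x hx hmem
    have := hR hmem
    rw [mem_ball_zero_iff] at this
    exact absurd hx (not_le.mpr this)
  have hφ0 : ∀ x : E (n + 1), R ≤ ‖x‖ → φ x = 0 := fun x hx => image_eq_zero_of_notMem_tsupport (hz x hx)
  have hdφ0 : ∀ x : E (n + 1), R ≤ ‖x‖ → fderiv ℝ φ x = 0 := by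
    intro x hx
    by_contra hne
    exact hz x hx (support_fderiv_subset ℝ hne)
  have hφd : ∀ x, HasFDerivAt φ (fderiv ℝ φ x) x := fun x =>
    ((hφ.differentiable (by simp)) x).hasFDerivAt
  have hdc : Continuous (fderiv ℝ φ) := hφ.continuous_fderiv (by simp)
  have hnorm : ∀ (y : Fin (n + 1) → ℝ) (i : Fin (n + 1)), |y i| ≤ ‖eL (n + 1) y‖ := by
    intro y i
    have := PiLp.norm_apply_le (eL (n + 1) y) i
    exact this
  rw [integral_eL]
  set a : Fin (n + 1) → ℝ := fun _ => -R with ha
  set b : Fin (n + 1) → ℝ := fun _ => R with hb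
  have hle : a ≤ b := fun _ => by simp only [ha, hb]; linarith
  have hout : ∀ y : Fin (n + 1) → ℝ, y ∉ Set.Icc a b →
      ∑ k, F k (eL (n + 1) y) * fderiv ℝ φ (eL (n + 1) y) (unit k) = 0 := by
    intro y hy
    have : R ≤ ‖eL (n + 1) y‖ := by
      by_contra hcon
      apply hy
      push Not at hcon
      constructor
      · intro i
        have := hnorm y i
        have h2 := neg_abs_le (y i)
        simp only [ha]; linarith
      · intro i
        have := hnorm y i
        have h2 := le_abs_self (y i)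
        simp only [hb]; linarith
    simp [hdφ0 _ this]
  rw [← setIntegral_eq_integral_of_forall_compl_eq_zero hout]
  have hkey := integral_divergence_of_hasFDerivAt_off_countable' a b hle
    (fun k y => φ (eL (n + 1) y) * F k (eL (n + 1) y))
    (fun k y => ((φ (eL (n + 1) y)) • F' k (eL (n + 1) y) +
      (F k (eL (n + 1) y)) • fderiv ℝ φ (eL (n + 1) y)).comp
        (eL (n + 1) : (Fin (n + 1) → ℝ) →L[ℝ] E (n + 1)))
    {0} (Set.countable_singleton 0)
    (fun k => ((hφ.continuous.comp (eL (n + 1)).continuous).mul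
      ((hc k).comp (eL (n + 1)).continuous)).continuousOn)
    (by
      intro y hy k
      have hy0 : y ≠ 0 := by simpa using hy.2
      have hx0 : eL (n + 1) y ≠ 0 := by
        intro h
        apply hy0
        have := (eL (n + 1)).injective (h.trans (map_zero (eL (n + 1))).symm)
        exact this
      have h1 := (hφd (eL (n + 1) y)).mul (hd k (eL (n + 1) y) hx0)
      exact h1.comp y (eL (n + 1)).hasFDerivAt)
  have hD : ∀ y : Fin (n + 1) → ℝ,
      (∑ k, (((φ (eL (n + 1) y)) • F' k (eL (n + 1) y) +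
      (F k (eL (n + 1) y)) • fderiv ℝ φ (eL (n + 1) y)).comp
        (eL (n + 1) : (Fin (n + 1) → ℝ) →L[ℝ] E (n + 1))) (Pi.single k 1)) =
      ∑ k, F k (eL (n + 1) y) * fderiv ℝ φ (eL (n + 1) y) (unit k) := by
    intro y
    have : ∀ k, (((φ (eL (n + 1) y)) • F' k (eL (n + 1) y) +
      (F k (eL (n + 1) y)) • fderiv ℝ φ (eL (n + 1) y)).comp
        (eL (n + 1) : (Fin (n + 1) → ℝ) →L[ℝ] E (n + 1))) (Pi.single k 1) =
        φ (eL (n + 1) y) * F' k (eL (n + 1) y) (unit k) +
        F k (eL (n + 1) y) * fderiv ℝ φ (eL (n + 1) y) (unit k) := by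
      intro k
      rw [← eL_single]
      simp
    rw [Finset.sum_congr rfl (fun k _ => this k), Finset.sum_add_distrib, ← Finset.mul_sum, hdiv,
      mul_zero, zero_add]
  have hcont : Continuous (fun y : Fin (n + 1) → ℝ =>
      ∑ k, F k (eL (n + 1) y) * fderiv ℝ φ (eL (n + 1) y) (unit k)) := by
    refine continuous_finsetSum _ (fun k _ => ?_)
    exact ((hc k).comp (eL (n + 1)).continuous).mul
      ((hdc.comp (eL (n + 1)).continuous).clm_apply continuous_const)
  have hkey2 := hkey (by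
    simp only [hD]
    exact hcont.continuousOn.integrableOn_compact isCompact_Icc)
  simp only [hD] at hkey2
  rw [hkey2]
  apply Finset.sum_eq_zero
  intro i _
  have e1 : ∀ (x : Fin n → ℝ) (c : ℝ), |c| = R →
      φ (eL (n + 1) (i.insertNth c x)) * F i (eL (n + 1) (i.insertNth c x)) = 0 := by
    intro x c hcR
    have h1 := hnorm (i.insertNth c x) i
    rw [Fin.insertNth_apply_same, hcR] at h1
    rw [hφ0 _ h1, zero_mul]
  have e2 : ∀ x : Fin n → ℝ,
      φ (eL (n + 1) (i.insertNth (b i) x)) * F i (eL (n + 1) (i.insertNth (b i) x)) = 0 :=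
    fun x => e1 x (b i) (by simp only [hb]; exact abs_of_pos hR0)
  have e3 : ∀ x : Fin n → ℝ,
      φ (eL (n + 1) (i.insertNth (a i) x)) * F i (eL (n + 1) (i.insertNth (a i) x)) = 0 :=
    fun x => e1 x (a i) (by simp only [ha, abs_neg]; exact abs_of_pos hR0)
  simp only [e2, e3, integral_zero, sub_zero]

end DivAux

theorem divP : DivP := by
  classical
  intro d F F' hc hd hdiv φ hφ hs
  cases d with
  | zero => simp
  | succ n =>
    refine DivAux.main n F (fun k x => if x = 0 then 0 else F' k x) hc ?_ ?_ φ hφ hs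
    · intro k x hx
      simp only [hx, if_false]
      exact hd k x hx
    · intro x
      by_cases hx : x = 0
      · simp [hx]
      · simp only [hx, if_false]
        exact hdiv x hx

end Pool.Agent.R271.PH
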