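import Pool.Agent.R271.PH.Stm

set_option autoImplicit false

open MeasureTheory

namespace Pool.Agent.R271.PH

/-- P1, by helper364 -/
theorem expoP : ExpoP := by
  intro d p hd hp1 hp2
  have hp0 : 0 < p := by linarith
  have hd' : (3 : ℝ) ≤ d := by exact_mod_cast hd
  set f : ℝ → ℝ := fun a => (2 * a + (2 * a + 1) * (p - 2)) * (a + 1) + a * d with hf
  have hcont : Continuous f := by
    rw [hf]; fun_prop
  have ha1 : 0 < 1 / p - 1 / 2 := by
    have : 1 / 2 < 1 / p := one_div_lt_one_div_of_lt hp0 hp2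
    linarith
  have h0 : f 0 < 0 := by
    rw [hf]; simp only; nlinarith
  have h1 : 0 < f (1 / p - 1 / 2) := by
    have e : f (1 / p - 1 / 2) = (2 - p) * (d * p - p - 2) / (2 * p ^ 2) := by
      rw [hf]; simp only; field_simp; ring
    rw [e]
    have h2 : 0 < 2 - p := by linarith
    have h3 : 0 < d * p - p - 2 := by nlinarith
    positivity
  obtain ⟨a, ⟨ha0, ha2⟩, hfa⟩ := intermediate_value_Ioo ha1.le hcont.continuousOn
    (show (0 : ℝ) ∈ Set.Ioo (f 0) (f (1 / p - 1 / 2)) from ⟨h0, h1⟩)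
  refine ⟨a, ha0, hfa, ?_, ?_, ?_⟩
  · have : a * p < (1 / p - 1 / 2) * p := mul_lt_mul_of_pos_right ha2 hp0
    have e : (1 / p - 1 / 2) * p = 1 - p / 2 := by field_simp
    rw [e] at this
    linarith
  · positivity
  · have : 0 < p - 1 := by linarith
    positivity

end Pool.Agent.R271.PH
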