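import Pool.Agent.R271.PH.Stm

set_option autoImplicit false

open MeasureTheory Filter Topology Pointwise

namespace Pool.Agent.R271.PH

namespace FailAux

theorem key {β : ℝ} (hβ1 : β < 1) (C : ℝ) :
    ¬ (∀ᶠ t : ℝ in 𝓝[>] 0, t ^ β ≤ C * t) := by
  intro h
  have h1 : Tendsto (fun t : ℝ => C * t ^ (1 - β)) (𝓝[>] 0) (𝓝 (C * 0 ^ (1 - β))) := by
    apply Tendsto.const_mul
    have : ContinuousAt (fun x : ℝ => x ^ (1 - β)) 0 :=
      Real.continuousAt_rpow_const 0 (1 - β) (Or.inr (by linarith))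
    exact this.tendsto.mono_left nhdsWithin_le_nhds
  rw [Real.zero_rpow (by linarith), mul_zero] at h1
  have h2 : ∀ᶠ t : ℝ in 𝓝[>] 0, (1 : ℝ) ≤ C * t ^ (1 - β) := by
    filter_upwards [h, self_mem_nhdsWithin] with t ht ht0
    have ht0' : 0 < t := ht0
    have e1 : t ^ β * t ^ (-β) = 1 := by
      rw [← Real.rpow_add ht0']; simp
    have e2 : t ^ (1 - β) = t * t ^ (-β) := by
      rw [sub_eq_add_neg, Real.rpow_add ht0', Real.rpow_one]
    calc (1 : ℝ) = t ^ β * t ^ (-β) := e1.symm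
      _ ≤ C * t * t ^ (-β) := mul_le_mul_of_nonneg_right ht (Real.rpow_nonneg ht0'.le _)
      _ = C * t ^ (1 - β) := by rw [e2]; ring
  have := ge_of_tendsto h1 h2
  linarith

variable {n d : ℕ}

theorem mean_zero {W : E d → Mat n d} (hodd : ∀ x, W (-x) = -W x) (t : ℝ) :
    ⨍ z in Metric.ball (0 : E d) t, W z = 0 := by
  rw [setAverage_eq]
  have h1 : ∫ z in Metric.ball (0 : E d) t, W z = ∫ z in Metric.ball (0 : E d) t, W (-z) := by
    rw [← integral_indicator measurableSet_ball, ← integral_indicator measurableSet_ball,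
      ← integral_neg_eq_self]
    congr 1
    ext1 z
    by_cases hz : z ∈ Metric.ball (0 : E d) t
    · have hz' : -z ∈ Metric.ball (0 : E d) t := by simpa using hz
      rw [Set.indicator_of_mem hz, Set.indicator_of_mem hz']
    · have hz' : -z ∉ Metric.ball (0 : E d) t := by simpa using hz
      rw [Set.indicator_of_notMem hz, Set.indicator_of_notMem hz']
  have h2 : ∫ z in Metric.ball (0 : E d) t, W (-z) = -∫ z in Metric.ball (0 : E d) t, W z := by
    simp only [hodd]
    exact integral_neg _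
  have h3 : ∫ z in Metric.ball (0 : E d) t, W z = 0 := by
    have h4 := h1.trans h2
    have h5 : (2 : ℝ) • ∫ z in Metric.ball (0 : E d) t, W z = 0 := by
      rw [two_smul]
      nth_rewrite 1 [h4]
      exact neg_add_cancel _
    exact (smul_eq_zero.1 h5).resolve_left two_ne_zero
  rw [h3, smul_zero]

theorem osc_eq {W : E d → Mat n d} (hodd : ∀ x, W (-x) = -W x) (t : ℝ) :
    osc W 0 t = (⨍ y in Metric.ball (0 : E d) t, ‖W y‖ ^ 2) ^ (1 / 2 : ℝ) := by
  unfold osc
  rw [mean_zero hodd t]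
  simp only [sub_zero]

theorem int_scale {W : E d → Mat n d} {K β : ℝ}
    (hnorm : ∀ x, ‖W x‖ = K * ‖x‖ ^ β) {t : ℝ} (ht : 0 < t) :
    ⨍ y in Metric.ball (0 : E d) t, ‖W y‖ ^ 2 =
      (t ^ β) ^ 2 * ⨍ y in Metric.ball (0 : E d) 1, ‖W y‖ ^ 2 := by
  rw [setAverage_eq, setAverage_eq, smul_eq_mul, smul_eq_mul]
  have h1 := Measure.setIntegral_comp_smul_of_pos (volume : Measure (E d))
    (fun y => ‖W y‖ ^ 2) (Metric.ball (0 : E d) 1) ht
  have hball : t • Metric.ball (0 : E d) 1 = Metric.ball (0 : E d) t := by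
    rw [smul_ball ht.ne', smul_zero, Real.norm_eq_abs, abs_of_pos ht, mul_one]
  rw [hball] at h1
  have h2 : ∀ y : E d, ‖W (t • y)‖ ^ 2 = (t ^ β) ^ 2 * ‖W y‖ ^ 2 := by
    intro y
    rw [hnorm, hnorm, norm_smul, Real.norm_eq_abs, abs_of_pos ht,
      Real.mul_rpow ht.le (norm_nonneg _)]
    ring
  simp only [h2] at h1
  rw [integral_const_mul, smul_eq_mul] at h1
  have hvol : (volume : Measure (E d)).real (Metric.ball (0 : E d) t) =
      t ^ (Module.finrank ℝ (E d)) * (volume : Measure (E d)).real (Metric.ball (0 : E d) 1) := by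
    have := Measure.addHaar_ball_mul_of_pos (volume : Measure (E d)) (0 : E d) ht 1
    rw [mul_one] at this
    rw [Measure.real, this, ENNReal.toReal_mul, ENNReal.toReal_ofReal (by positivity)]
    rfl
  rw [hvol]
  have hpos : (0 : ℝ) < t ^ (Module.finrank ℝ (E d)) := pow_pos ht _
  rw [mul_inv]
  calc (t ^ Module.finrank ℝ (E d))⁻¹ * (volume.real (Metric.ball (0 : E d) 1))⁻¹ *
        ∫ y in Metric.ball (0 : E d) t, ‖W y‖ ^ 2
      = (volume.real (Metric.ball (0 : E d) 1))⁻¹ * ((t ^ Module.finrank ℝ (E d))⁻¹ *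
        ∫ y in Metric.ball (0 : E d) t, ‖W y‖ ^ 2) := by ring
    _ = (volume.real (Metric.ball (0 : E d) 1))⁻¹ * ((t ^ β) ^ 2 *
        ∫ y in Metric.ball (0 : E d) 1, ‖W y‖ ^ 2) := by rw [h1]
    _ = _ := by ring

theorem avg_pos {W : E d → Mat n d} {K β : ℝ} (hd : 1 ≤ d) (hK : 0 < K)
    (hcont : Continuous W) (hnorm : ∀ x, ‖W x‖ = K * ‖x‖ ^ β) :
    0 < ⨍ y in Metric.ball (0 : E d) 1, ‖W y‖ ^ 2 := by
  rw [setAverage_eq, smul_eq_mul]
  have hc2 : Continuous fun y => ‖W y‖ ^ 2 := (hcont.norm).pow 2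
  apply mul_pos
  · rw [inv_pos]
    exact ENNReal.toReal_pos (Metric.measure_ball_pos volume 0 one_pos).ne'
      measure_ball_lt_top.ne
  · rw [setIntegral_pos_iff_support_of_nonneg_ae]
    · apply IsOpen.measure_pos
      · exact hc2.isOpen_support.inter Metric.isOpen_ball
      · refine ⟨(1 / 2 : ℝ) • unit ⟨0, hd⟩, ?_, ?_⟩
        · have hn : ‖(1 / 2 : ℝ) • (unit ⟨0, hd⟩ : E d)‖ = 1 / 2 := by
            rw [norm_smul]; simp [unit]
          rw [Function.mem_support, hnorm, hn]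
          positivity
        · rw [Metric.mem_ball, dist_zero_right, norm_smul]
          simp [unit]
          norm_num
    · exact Eventually.of_forall fun y => by positivity
    · exact (hc2.continuousOn.integrableOn_compact (isCompact_closedBall (0 : E d) 1)).mono_set
        Metric.ball_subset_closedBall

end FailAux

/-- P7, by helper364 -/
theorem failP : FailP := by
  intro n d W K β hd hK hβ0 hβ1 hcont hodd hnorm
  have hW0 : W 0 = 0 := by
    rw [← norm_eq_zero, hnorm 0, norm_zero, Real.zero_rpow hβ0.ne', mul_zero]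
  refine ⟨?_, ?_⟩
  · rintro ⟨W', hW', hae⟩
    rw [Measure.restrict_univ] at hae
    rw [contDiffOn_univ] at hW'
    have heq : W' = W := (hW'.continuous.ae_eq_iff_eq volume hcont).1 hae
    rw [heq] at hW'
    have hdiff : DifferentiableAt ℝ W 0 := hW'.differentiable one_ne_zero 0
    have hO := hdiff.hasFDerivAt.isBigO_sub
    obtain ⟨C, hC⟩ := hO.bound
    have htend : Tendsto (fun t : ℝ => t • (unit ⟨0, hd⟩ : E d)) (𝓝[>] 0) (𝓝 0) := by
      have : Continuous fun t : ℝ => t • (unit ⟨0, hd⟩ : E d) := by fun_prop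
      have h2 := this.tendsto 0
      rw [zero_smul] at h2
      exact h2.mono_left nhdsWithin_le_nhds
    apply FailAux.key hβ1 (C / K)
    filter_upwards [htend.eventually hC, self_mem_nhdsWithin] with t ht ht0
    have ht0' : 0 < t := ht0
    have hn : ‖t • (unit ⟨0, hd⟩ : E d)‖ = t := by
      rw [norm_smul]; simp [unit, abs_of_pos ht0']
    rw [hW0, sub_zero, sub_zero, hnorm, hn] at ht
    rw [div_mul_eq_mul_div, le_div_iff₀ hK]
    linarith
  · rintro ⟨c, hc⟩
    have hpos := FailAux.avg_pos hd hK hcont hnorm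
    have hosc : ∀ t : ℝ, 0 < t → osc W 0 t = t ^ β * osc W 0 1 := by
      intro t ht
      rw [FailAux.osc_eq hodd, FailAux.osc_eq hodd, FailAux.int_scale hnorm ht,
        Real.mul_rpow (by positivity) hpos.le]
      congr 1
      rw [← Real.sqrt_eq_rpow, Real.sqrt_sq (Real.rpow_nonneg ht.le _)]
    have ho1 : 0 < osc W 0 1 := by
      rw [FailAux.osc_eq hodd]
      exact Real.rpow_pos_of_pos hpos _
    apply FailAux.key hβ1 c
    have h1 : ∀ᶠ t : ℝ in 𝓝[>] 0, t < 1 :=
      (eventually_lt_nhds (zero_lt_one)).filter_mono nhdsWithin_le_nhds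
    filter_upwards [h1, self_mem_nhdsWithin] with t ht1 ht0
    have ht0' : 0 < t := ht0
    have := hc 0 1 t one_pos (Set.subset_univ _) ht0' ht1.le
    rw [mul_one, hosc t ht0'] at this
    exact le_of_mul_le_mul_right this ho1

end Pool.Agent.R271.PH
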