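import Pool.Agent.R271.PH.Stm

set_option autoImplicit false

open MeasureTheory

namespace Pool.Agent.R271.PH

namespace FieldAux

variable {d : ℕ}

theorem hasFDerivAt_s (e : ℝ) (x : E d) (hx : x ≠ 0) :
    HasFDerivAt (fun x : E d => (‖x‖ ^ 2) ^ e)
      ((e * (‖x‖ ^ 2) ^ (e - 1)) • ((2 : ℝ) • (innerSL ℝ x : E d →L[ℝ] ℝ))) x := by
  have h1 : HasFDerivAt (fun x : E d => ‖x‖ ^ 2) ((2 : ℝ) • (innerSL ℝ x : E d →L[ℝ] ℝ)) x := by
    have e : (2 : ℝ) • (innerSL ℝ x : E d →L[ℝ] ℝ) = (2 : ℕ) • (innerSL ℝ x : E d →L[ℝ] ℝ) := by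
      rw [two_smul, two_smul]
    rw [e]
    exact (hasStrictFDerivAt_norm_sq x).hasFDerivAt
  have h2 : ‖x‖ ^ 2 ≠ 0 := pow_ne_zero _ (norm_ne_zero_iff.2 hx)
  exact h1.rpow_const (Or.inl h2)

theorem hasFDerivAt_co (k : Fin d) (x : E d) :
    HasFDerivAt (fun x : E d => x k) (EuclideanSpace.proj k : E d →L[ℝ] ℝ) x :=
  (EuclideanSpace.proj k : E d →L[ℝ] ℝ).hasFDerivAt

/-- the field away from the origin -/
noncomputable def Fld (a c : ℝ) (i j k : Fin d) (x : E d) : ℝ :=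
  2 * a * ((‖x‖ ^ 2) ^ (c - 1) * (x k * (x i * x j)))
    + (‖x‖ ^ 2) ^ c * ((if i = k then (1 : ℝ) else 0) * x j + (if j = k then (1 : ℝ) else 0) * x i)
    - ((if i = j then (1 : ℝ) / d else 0) * (2 * (a + 1))) * ((‖x‖ ^ 2) ^ c * x k)

theorem fld_eq (a b : ℝ) (i j k : Fin d) (x : E d) (hx : x ≠ 0) :
    (‖x‖ ^ 2) ^ b * DU a i j k x = Fld a (a + b) i j k x := by
  have hs : 0 < ‖x‖ ^ 2 := pow_pos (norm_pos_iff.2 hx) _
  unfold DU Fld
  have e1 : (‖x‖ ^ 2) ^ (a + b - 1) = (‖x‖ ^ 2) ^ b * (‖x‖ ^ 2) ^ (a - 1) := by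
    rw [← Real.rpow_add hs]; congr 1; ring
  have e2 : (‖x‖ ^ 2) ^ (a + b) = (‖x‖ ^ 2) ^ b * (‖x‖ ^ 2) ^ a := by
    rw [← Real.rpow_add hs]; congr 1; ring
  rw [e1, e2]
  split_ifs <;> ring

/-- the derivative of the field -/
noncomputable def Fd (a c : ℝ) (i j k : Fin d) (x : E d) : E d →L[ℝ] ℝ :=
  (2 * a) • ((‖x‖ ^ 2) ^ (c - 1) • (x k • (x i • (EuclideanSpace.proj j : E d →L[ℝ] ℝ)
        + x j • (EuclideanSpace.proj i : E d →L[ℝ] ℝ))
        + (x i * x j) • (EuclideanSpace.proj k : E d →L[ℝ] ℝ))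
      + (x k * (x i * x j)) •
        (((c - 1) * (‖x‖ ^ 2) ^ (c - 1 - 1)) • ((2 : ℝ) • (innerSL ℝ x : E d →L[ℝ] ℝ))))
    + ((‖x‖ ^ 2) ^ c • ((if i = k then (1 : ℝ) else 0) • (EuclideanSpace.proj j : E d →L[ℝ] ℝ)
        + (if j = k then (1 : ℝ) else 0) • (EuclideanSpace.proj i : E d →L[ℝ] ℝ))
      + ((if i = k then (1 : ℝ) else 0) * x j + (if j = k then (1 : ℝ) else 0) * x i) •
        ((c * (‖x‖ ^ 2) ^ (c - 1)) • ((2 : ℝ) • (innerSL ℝ x : E d →L[ℝ] ℝ))))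
    - ((if i = j then (1 : ℝ) / d else 0) * (2 * (a + 1))) •
      ((‖x‖ ^ 2) ^ c • (EuclideanSpace.proj k : E d →L[ℝ] ℝ)
        + x k • ((c * (‖x‖ ^ 2) ^ (c - 1)) • ((2 : ℝ) • (innerSL ℝ x : E d →L[ℝ] ℝ))))

theorem hasFDerivAt_fld (a c : ℝ) (i j k : Fin d) (x : E d) (hx : x ≠ 0) :
    HasFDerivAt (Fld a c i j k) (Fd a c i j k x) x := by
  have hk := hasFDerivAt_co k x
  have hi := hasFDerivAt_co i x
  have hj := hasFDerivAt_co j x
  have h1 := hasFDerivAt_s (c - 1) x hx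
  have h2 := hasFDerivAt_s c x hx
  exact (((h1.mul (hk.mul (hi.mul hj))).const_mul (2 * a)).add
    (h2.mul ((hj.const_mul (if i = k then (1 : ℝ) else 0)).add
      (hi.const_mul (if j = k then (1 : ℝ) else 0))))).sub
    ((h2.mul hk).const_mul ((if i = j then (1 : ℝ) / d else 0) * (2 * (a + 1))))

theorem proj_unit (i k : Fin d) :
    (EuclideanSpace.proj i : E d →L[ℝ] ℝ) (unit k) = if i = k then 1 else 0 := by
  simp [unit]

theorem inner_unit (x : E d) (k : Fin d) : (innerSL ℝ x : E d →L[ℝ] ℝ) (unit k) = x k := by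
  simp [unit, EuclideanSpace.inner_single_right]

theorem Fd_unit (a c : ℝ) (i j k : Fin d) (x : E d) :
    Fd a c i j k x (unit k) =
      2 * a * (‖x‖ ^ 2) ^ (c - 1) * (x i * x j) + 
      2 * a * (‖x‖ ^ 2) ^ (c - 1) * ((if i = k then x k * x j else 0)
        + (if j = k then x k * x i else 0)) +
      4 * a * (c - 1) * (‖x‖ ^ 2) ^ (c - 1 - 1) * (x i * x j) * (x k) ^ 2 +
      2 * (‖x‖ ^ 2) ^ c * (if i = k then (if j = k then 1 else 0) else 0) +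
      2 * c * (‖x‖ ^ 2) ^ (c - 1) * ((if i = k then x k * x j else 0)
        + (if j = k then x k * x i else 0)) -
      ((if i = j then (1 : ℝ) / d else 0) * (2 * (a + 1))) *
        ((‖x‖ ^ 2) ^ c + 2 * c * (‖x‖ ^ 2) ^ (c - 1) * (x k) ^ 2) := by
  unfold Fd
  simp only [add_apply, sub_apply, smul_apply, smul_eq_mul, proj_unit, inner_unit, if_true]
  split_ifs <;> ring

theorem sum_sq (x : E d) : ∑ k, (x k) ^ 2 = ‖x‖ ^ 2 := by
  rw [EuclideanSpace.norm_sq_eq]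
  simp

theorem div_zero (a c : ℝ) (hd : 1 ≤ d) (h : 2 * c * (a + 1) + a * d = 0)
    (i j : Fin d) (x : E d) (hx : x ≠ 0) :
    ∑ k, Fd a c i j k x (unit k) = 0 := by
  have hs : 0 < ‖x‖ ^ 2 := pow_pos (norm_pos_iff.2 hx) _
  have hd' : (d : ℝ) ≠ 0 := by positivity
  have e1 : (‖x‖ ^ 2) ^ (c - 1 - 1) * ‖x‖ ^ 2 = (‖x‖ ^ 2) ^ (c - 1) := by
    rw [← Real.rpow_add_one hs.ne']; congr 1; ring
  have e2 : (‖x‖ ^ 2) ^ (c - 1) * ‖x‖ ^ 2 = (‖x‖ ^ 2) ^ c := by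
    rw [← Real.rpow_add_one hs.ne']; congr 1; ring
  simp only [Fd_unit, Finset.sum_add_distrib, Finset.sum_sub_distrib, ← Finset.mul_sum,
    Finset.sum_const, Finset.card_univ, Fintype.card_fin, sum_sq, Finset.sum_ite_eq,
    Finset.mem_univ, if_true, nsmul_eq_mul]
  have e3 : 4 * a * (c - 1) * (‖x‖ ^ 2) ^ (c - 1 - 1) * (x i * x j) * ‖x‖ ^ 2
      = 4 * a * (c - 1) * (x i * x j) * (‖x‖ ^ 2) ^ (c - 1) := by
    rw [← e1]; ring
  have e4 : 2 * c * (‖x‖ ^ 2) ^ (c - 1) * ‖x‖ ^ 2 = 2 * c * (‖x‖ ^ 2) ^ c := by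
    rw [← e2]; ring
  rw [e3, e4]
  by_cases hij : i = j
  · subst hij
    simp only [if_true]
    have h1 : (1 : ℝ) / d * (2 * (a + 1)) * (d * (‖x‖ ^ 2) ^ c + 2 * c * (‖x‖ ^ 2) ^ c)
        = 2 * (‖x‖ ^ 2) ^ c := by
      field_simp
      linear_combination h
    rw [h1]
    linear_combination 2 * (‖x‖ ^ 2) ^ (c - 1) * (x i * x i) * h
  · have hji : ¬ j = i := fun h => hij h.symm
    simp only [hij, hji, if_false]
    linear_combination 2 * (‖x‖ ^ 2) ^ (c - 1) * (x i * x j) * h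

theorem abs_co (x : E d) (k : Fin d) : |x k| ≤ ‖x‖ := by
  have := PiLp.norm_apply_le x k
  simpa using this

theorem DU_zero (a : ℝ) (i j k : Fin d) : DU a i j k (0 : E d) = 0 := by
  simp [DU]

theorem bound (a c : ℝ) (ha : 0 < a) (hd : 1 ≤ d) (i j k : Fin d) (x : E d) (hx : x ≠ 0) :
    |Fld a c i j k x| ≤ (4 * a + 4) * ‖x‖ ^ (2 * c + 1) := by
  have hm : 0 < ‖x‖ := norm_pos_iff.2 hx
  have e1 : (‖x‖ ^ 2) ^ (c - 1) * (‖x‖ * (‖x‖ * ‖x‖)) = ‖x‖ ^ (2 * c + 1) := by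
    rw [← Real.rpow_natCast ‖x‖ 2, ← Real.rpow_mul hm.le]
    have : ‖x‖ * (‖x‖ * ‖x‖) = ‖x‖ ^ (3 : ℝ) := by
      rw [show (3 : ℝ) = ((3 : ℕ) : ℝ) by norm_num, Real.rpow_natCast]; ring
    rw [this, ← Real.rpow_add hm]
    congr 1
    push_cast
    ring
  have e2 : (‖x‖ ^ 2) ^ c * ‖x‖ = ‖x‖ ^ (2 * c + 1) := by
    rw [← Real.rpow_natCast ‖x‖ 2, ← Real.rpow_mul hm.le, ← Real.rpow_add_one hm.ne']
    congr 1
  have hR : 0 < ‖x‖ ^ (2 * c + 1) := Real.rpow_pos_of_pos hm _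
  have p1 : 0 < (‖x‖ ^ 2) ^ (c - 1) := Real.rpow_pos_of_pos (pow_pos hm _) _
  have p2 : 0 < (‖x‖ ^ 2) ^ c := Real.rpow_pos_of_pos (pow_pos hm _) _
  have b1 : |2 * a * ((‖x‖ ^ 2) ^ (c - 1) * (x k * (x i * x j)))| ≤
      2 * a * ‖x‖ ^ (2 * c + 1) := by
    rw [abs_mul, abs_of_pos (by linarith : 0 < 2 * a), abs_mul, abs_of_pos p1, abs_mul, abs_mul,
      ← e1]
    have := abs_co x k
    have := abs_co x i
    have := abs_co x j
    gcongr
  have b2 : |(‖x‖ ^ 2) ^ c * ((if i = k then (1 : ℝ) else 0) * x j +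
      (if j = k then (1 : ℝ) else 0) * x i)| ≤ 2 * ‖x‖ ^ (2 * c + 1) := by
    rw [abs_mul, abs_of_pos p2, ← e2]
    have h1 := abs_co x i
    have h2 := abs_co x j
    have h3 : |(if i = k then (1 : ℝ) else 0) * x j + (if j = k then (1 : ℝ) else 0) * x i|
        ≤ 2 * ‖x‖ := by
      refine (abs_add_le _ _).trans ?_
      have : |(if i = k then (1 : ℝ) else 0) * x j| ≤ ‖x‖ := by
        split_ifs
        · simpa using h2
        · simp
      have : |(if j = k then (1 : ℝ) else 0) * x i| ≤ ‖x‖ := by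
        split_ifs
        · simpa using h1
        · simp
      linarith
    calc (‖x‖ ^ 2) ^ c * |(if i = k then (1 : ℝ) else 0) * x j +
          (if j = k then (1 : ℝ) else 0) * x i| ≤ (‖x‖ ^ 2) ^ c * (2 * ‖x‖) := by gcongr
      _ = 2 * ((‖x‖ ^ 2) ^ c * ‖x‖) := by ring
  have b3 : |((if i = j then (1 : ℝ) / d else 0) * (2 * (a + 1))) * ((‖x‖ ^ 2) ^ c * x k)| ≤
      (2 * (a + 1)) * ‖x‖ ^ (2 * c + 1) := by
    rw [abs_mul, abs_mul _ (2 * (a + 1)), abs_mul _ (x k), abs_of_pos p2, ← e2,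
      abs_of_pos (by linarith : 0 < 2 * (a + 1))]
    have h1 := abs_co x k
    have h3 : |(if i = j then (1 : ℝ) / d else 0)| ≤ 1 := by
      split_ifs
      · rw [abs_of_nonneg (by positivity)]
        rw [div_le_one (by exact_mod_cast hd)]
        exact_mod_cast hd
      · simp
    calc |(if i = j then (1 : ℝ) / d else 0)| * (2 * (a + 1)) * ((‖x‖ ^ 2) ^ c * |x k|)
        ≤ 1 * (2 * (a + 1)) * ((‖x‖ ^ 2) ^ c * ‖x‖) := by gcongr
      _ = (2 * (a + 1)) * ((‖x‖ ^ 2) ^ c * ‖x‖) := by ring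
  unfold Fld
  refine (abs_sub _ _).trans ?_
  have := abs_add_le (2 * a * ((‖x‖ ^ 2) ^ (c - 1) * (x k * (x i * x j))))
    ((‖x‖ ^ 2) ^ c * ((if i = k then (1 : ℝ) else 0) * x j +
      (if j = k then (1 : ℝ) else 0) * x i))
  linarith

end FieldAux

open FieldAux

theorem fieldP : FieldP := by
  intro d p a b hd ha hb hpos hid i j
  have h2c : 2 * (a + b) = 2 * a + (2 * a + 1) * (p - 2) := by rw [hb]; ring
  have hpos' : 0 < 2 * (a + b) + 1 := by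
    rw [h2c]
    have : 2 * a + (2 * a + 1) * (p - 2) + 1 = (2 * a + 1) * (p - 1) := by ring
    linarith
  have hder : ∀ k, ∀ x : E d, x ≠ 0 →
      HasFDerivAt (fun x : E d => (‖x‖ ^ 2) ^ b * DU a i j k x) (Fd a (a + b) i j k x) x := by
    intro k x hx
    refine (hasFDerivAt_fld a (a + b) i j k x hx).congr_of_eventuallyEq ?_
    have : ∀ᶠ y in nhds x, y ≠ 0 := isOpen_ne.mem_nhds hx
    filter_upwards [this] with y hy
    exact fld_eq a b i j k y hy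
  refine ⟨fun k x => Fd a (a + b) i j k x, fun k => ?_, hder, fun x hx => ?_⟩
  · rw [continuous_iff_continuousAt]
    intro x
    by_cases hx : x = 0
    · subst hx
      have h0 : (‖(0 : E d)‖ ^ 2) ^ b * DU a i j k 0 = 0 := by
        simp [DU_zero]
      rw [ContinuousAt, h0]
      refine squeeze_zero_norm (a := fun x : E d => (4 * a + 4) * ‖x‖ ^ (2 * (a + b) + 1)) ?_ ?_
      · intro y
        by_cases hy : y = 0
        · subst hy
          simp [DU_zero]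
          positivity
        · rw [fld_eq a b i j k y hy]
          exact bound a (a + b) ha hd i j k y hy
      · have hc : Continuous fun x : E d => (4 * a + 4) * ‖x‖ ^ (2 * (a + b) + 1) :=
          continuous_const.mul (continuous_norm.rpow_const fun _ => Or.inr hpos'.le)
        have := hc.tendsto 0
        simpa [Real.zero_rpow hpos'.ne'] using this
    · exact (hder k x hx).continuousAt
  · refine div_zero a (a + b) hd ?_ i j x hx
    rw [h2c]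
    exact hid

end Pool.Agent.R271.PH
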