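import Pool.Agent.R271.PH.Stm

set_option autoImplicit false

open MeasureTheory

namespace Pool.Agent.R271.PH.MainAux

open Pool.Agent.R271.PH

theorem DU_neg {d : ℕ} (a : ℝ) (i j k : Fin d) (x : E d) : DU a i j k (-x) = -DU a i j k x := by
  unfold DU
  rw [norm_neg]
  simp only [PiLp.neg_apply]
  split_ifs <;> ring

theorem G_neg (d : ℕ) (a : ℝ) (x : E d) : Gmap d a (-x) = -Gmap d a x := by
  ext q
  simp only [Gmap, PiLp.neg_apply]
  exact DU_neg _ _ _ _ _

theorem G_apply (d : ℕ) (a : ℝ) (x : E d) (i : Fin (d * d)) (j : Fin d) :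
    Gmap d a x (i, j) = DU a (finProdFinEquiv.symm i).1 (finProdFinEquiv.symm i).2 j x := rfl

theorem h_apply (d : ℕ) (a : ℝ) (x : E d) (i : Fin (d * d)) :
    hmap d a x i = U a (finProdFinEquiv.symm i).1 (finProdFinEquiv.symm i).2 x := rfl

theorem G_norm_sq (h3 : NormP) (d : ℕ) (a : ℝ) (ha : 0 < a) (hd : 1 ≤ d) (x : E d) :
    ‖Gmap d a x‖ ^ 2 = CU a d * (‖x‖ ^ 2) ^ (2 * a + 1) := by
  rw [EuclideanSpace.norm_sq_eq, ← h3 d a ha hd x]
  rw [Fintype.sum_prod_type]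
  have : ∀ i : Fin (d * d), ∑ j : Fin d, ‖Gmap d a x (i, j)‖ ^ 2 =
      (fun q : Fin d × Fin d => ∑ k : Fin d, (DU a q.1 q.2 k x) ^ 2) (finProdFinEquiv.symm i) := by
    intro i
    refine Finset.sum_congr rfl (fun k _ => ?_)
    rw [G_apply, Real.norm_eq_abs, sq_abs]
  rw [Finset.sum_congr rfl (fun i _ => this i), Equiv.sum_comp finProdFinEquiv.symm
    (fun q : Fin d × Fin d => ∑ k : Fin d, (DU a q.1 q.2 k x) ^ 2), Fintype.sum_prod_type]

theorem CU_pos (a : ℝ) (ha : 0 < a) (d : ℕ) (hd : 3 ≤ d) : 0 < CU a d := by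
  unfold CU
  have h1 : (3 : ℝ) ≤ d := by exact_mod_cast hd
  have h2 : 1 / (d : ℝ) < 1 := by
    rw [div_lt_one (by linarith)]
    linarith
  have h3 : 0 < 1 - 1 / (d : ℝ) := by linarith
  positivity

theorem G_norm_rpow (h3 : NormP) (d : ℕ) (a : ℝ) (ha : 0 < a) (hd : 3 ≤ d) (x : E d) (t : ℝ) :
    ‖Gmap d a x‖ ^ t = (CU a d) ^ (t / 2) * (‖x‖ ^ 2) ^ ((2 * a + 1) * t / 2) := by
  have hC := (CU_pos a ha d hd).le
  have h1 : ‖Gmap d a x‖ ^ t = (‖Gmap d a x‖ ^ 2) ^ (t / 2) := by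
    rw [← Real.rpow_natCast, ← Real.rpow_mul (norm_nonneg _)]
    congr 1
    push_cast
    ring
  rw [h1, G_norm_sq h3 d a ha (by omega) x, Real.mul_rpow hC (by positivity),
    ← Real.rpow_mul (by positivity)]
  congr 2
  ring

theorem sq_rpow (r t : ℝ) (hr : 0 ≤ r) : (r ^ 2) ^ t = r ^ (2 * t) := by
  rw [← Real.rpow_natCast, ← Real.rpow_mul hr]
  congr 1

theorem fV_norm {n d : ℕ} (p : ℝ) (hp : 0 < p) (ξ : Mat n d) : ‖fV p ξ‖ = ‖ξ‖ ^ (p / 2) := by
  unfold fV
  rw [norm_smul, Real.norm_eq_abs, abs_of_nonneg (by positivity)]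
  rcases eq_or_ne ξ 0 with h | h
  · rw [h, norm_zero, mul_zero, Real.zero_rpow (by positivity)]
  · have h0 : 0 < ‖ξ‖ := norm_pos_iff.mpr h
    have : ‖ξ‖ ^ ((p - 2) / 2) * ‖ξ‖ = ‖ξ‖ ^ ((p - 2) / 2) * ‖ξ‖ ^ (1 : ℝ) := by
      rw [Real.rpow_one]
    rw [this, ← Real.rpow_add h0]
    congr 1
    ring

theorem hasF (h2 : DerivP) (d : ℕ) (a : ℝ) (ha : 0 < a) (x : E d) (i : Fin (d * d)) :
    HasFDerivAt (fun y => hmap d a y i)
      (∑ k, Gmap d a x (i, k) • (EuclideanSpace.proj k : E d →L[ℝ] ℝ)) x :=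
  (h2 d a ha (finProdFinEquiv.symm i).1 (finProdFinEquiv.symm i).2).1 x

theorem G_cont (h2 : DerivP) (d : ℕ) (a : ℝ) (ha : 0 < a) : Continuous (Gmap d a) := by
  have : Continuous (fun x : E d => (fun q : Fin (d * d) × Fin d =>
      DU a (finProdFinEquiv.symm q.1).1 (finProdFinEquiv.symm q.1).2 q.2 x)) :=
    continuous_pi (fun q => (h2 d a ha _ _).2 _)
  exact (PiLp.continuous_toLp 2 _).comp this

theorem sum_proj {d : ℕ} (c : Fin d → ℝ) (j : Fin d) :
    (∑ k, c k • (EuclideanSpace.proj k : E d →L[ℝ] ℝ)) (unit j) = c j := by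
  classical
  rw [ContinuousLinearMap.sum_apply, Finset.sum_eq_single j]
  · simp [unit]
  · intro b _ hb
    simp [unit, hb]
  · intro h
    exact absurd (Finset.mem_univ j) h

theorem h_diff (h2 : DerivP) (d : ℕ) (a : ℝ) (ha : 0 < a) (x : E d) :
    DifferentiableAt ℝ (hmap d a) x := by
  rw [differentiableAt_euclidean]
  intro i
  exact (hasF h2 d a ha x i).differentiableAt

theorem h_fderiv (h2 : DerivP) (d : ℕ) (a : ℝ) (ha : 0 < a) (x : E d) (i : Fin (d * d))
    (j : Fin d) : Gmap d a x (i, j) = (fderiv ℝ (hmap d a) x (unit j)) i := by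
  have h := (h_diff h2 d a ha x).hasFDerivAt
  have h' : HasFDerivAt (fun y => hmap d a y i)
      ((EuclideanSpace.proj i : E (d * d) →L[ℝ] ℝ).comp (fderiv ℝ (hmap d a) x)) x :=
    (EuclideanSpace.proj i : E (d * d) →L[ℝ] ℝ).hasFDerivAt.comp x h
  have h'' := h'.unique (hasF h2 d a ha x i)
  have := congrArg (fun L : E d →L[ℝ] ℝ => L (unit j)) h''
  rw [sum_proj] at this
  rw [← this]
  rfl

theorem h_c1 (h2 : DerivP) (d : ℕ) (a : ℝ) (ha : 0 < a) : ContDiff ℝ 1 (hmap d a) := by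
  rw [contDiff_euclidean]
  intro i
  rw [contDiff_one_iff_fderiv]
  refine ⟨fun x => (hasF h2 d a ha x i).differentiableAt, ?_⟩
  have : fderiv ℝ (fun y => hmap d a y i) = fun x =>
      ∑ k, Gmap d a x (i, k) • (EuclideanSpace.proj k : E d →L[ℝ] ℝ) := by
    funext x
    exact (hasF h2 d a ha x i).fderiv
  rw [this]
  refine continuous_finsetSum _ (fun k _ => ?_)
  exact ((h2 d a ha _ _).2 k).smul continuous_const

theorem memLp_of_cont {F : Type} [NormedAddCommGroup F] {d : ℕ} (f : E d → F)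
    (hf : Continuous f) (q : ENNReal) (K : Set (E d)) (hK : IsCompact K) :
    MemLp f q (volume.restrict K) := by
  have : IsFiniteMeasure (volume.restrict K) := ⟨by
    rw [Measure.restrict_apply_univ]
    exact hK.measure_lt_top⟩
  obtain ⟨C, hC⟩ := hK.exists_bound_of_continuousOn hf.continuousOn
  refine MemLp.of_bound ?_ C ?_
  · exact hf.continuousOn.aestronglyMeasurable_of_isCompact hK hK.measurableSet
  · exact (ae_restrict_iff' hK.measurableSet).mpr (Filter.Eventually.of_forall hC)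

theorem V_cont (h2 : DerivP) (h3 : NormP) (d : ℕ) (a p : ℝ) (ha : 0 < a) (hd : 3 ≤ d)
    (hp : 0 < p) (hβ : 0 < (2 * a + 1) * p / 2) :
    Continuous (fun x => fV p (Gmap d a x)) ∧
    ∀ x, ‖fV p (Gmap d a x)‖ = (CU a d) ^ (p / 4) * ‖x‖ ^ ((2 * a + 1) * p / 2) := by
  have hn : ∀ x, ‖fV p (Gmap d a x)‖ = (CU a d) ^ (p / 4) * ‖x‖ ^ ((2 * a + 1) * p / 2) := by
    intro x
    rw [fV_norm p hp, G_norm_rpow h3 d a ha hd, sq_rpow _ _ (norm_nonneg _)]
    congr 2
    · ring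
    · ring
  refine ⟨?_, hn⟩
  rw [continuous_iff_continuousAt]
  intro x
  rcases eq_or_ne x 0 with hx | hx
  · subst hx
    have h0 : fV p (Gmap d a 0) = 0 := by
      rw [← norm_eq_zero, hn, norm_zero, Real.zero_rpow hβ.ne', mul_zero]
    change Filter.Tendsto (fun x => fV p (Gmap d a x)) (nhds 0) (nhds (fV p (Gmap d a 0)))
    rw [h0, tendsto_zero_iff_norm_tendsto_zero]
    have : (fun x => ‖fV p (Gmap d a x)‖) =
        fun x : E d => (CU a d) ^ (p / 4) * ‖x‖ ^ ((2 * a + 1) * p / 2) := by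
      funext x
      exact hn x
    rw [this]
    have hc : Continuous (fun x : E d => (CU a d) ^ (p / 4) * ‖x‖ ^ ((2 * a + 1) * p / 2)) :=
      continuous_const.mul (continuous_norm.rpow_const (fun _ => Or.inr hβ.le))
    have := hc.tendsto 0
    simpa [norm_zero, Real.zero_rpow hβ.ne'] using this
  · have hG0 : ‖Gmap d a x‖ ≠ 0 := by
      have := G_norm_sq h3 d a ha (by omega) x
      intro h
      rw [h] at this
      have hpos : 0 < CU a d * (‖x‖ ^ 2) ^ (2 * a + 1) := by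
        have := CU_pos a ha d hd
        have hx' : 0 < ‖x‖ := norm_pos_iff.mpr hx
        positivity
      rw [← this] at hpos
      norm_num at hpos
    have h1 : ContinuousAt (fun x => ‖Gmap d a x‖ ^ ((p - 2) / 2)) x :=
      ((G_cont h2 d a ha).norm.continuousAt).rpow_const (Or.inl hG0)
    have h2' : ContinuousAt (fun x => Gmap d a x) x := (G_cont h2 d a ha).continuousAt
    exact h1.smul h2'

/-- the weak equation -/
theorem weak_eq (h2 : DerivP) (h3 : NormP) (h4 : DivP) (h5 : FieldP) (d : ℕ) (a p : ℝ)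
    (ha : 0 < a) (hd : 3 ≤ d) (hp1 : 0 < (2 * a + 1) * (p - 1))
    (heq : (2 * a + (2 * a + 1) * (p - 2)) * (a + 1) + a * d = 0)
    (φ : E d → E (d * d)) (hφ : ContDiff ℝ (⊤ : ℕ∞) φ) (hc : HasCompactSupport φ) :
    ∫ x, ∑ i : Fin (d * d), ∑ j : Fin d,
      fA p (Gmap d a x) (i, j) * (fderiv ℝ φ x (unit j)) i = 0 := by
  obtain ⟨b, hb⟩ : ∃ b : ℝ, b = (2 * a + 1) * (p - 2) / 2 := ⟨_, rfl⟩
  have hφi : ∀ i : Fin (d * d), ContDiff ℝ (⊤ : ℕ∞) (fun x => φ x i) := fun i =>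
    (contDiff_euclidean.mp hφ) i
  have hci : ∀ i : Fin (d * d), HasCompactSupport (fun x => φ x i) := fun i =>
    hc.comp_left (g := fun y : E (d * d) => y i) rfl
  have hfd : ∀ (i : Fin (d * d)) (x : E d) (j : Fin d),
      (fderiv ℝ φ x (unit j)) i = fderiv ℝ (fun x => φ x i) x (unit j) := by
    intro i x j
    have h := (hφ.differentiable (by simp) x).hasFDerivAt
    have h' : HasFDerivAt (fun y => φ y i)
        ((EuclideanSpace.proj i : E (d * d) →L[ℝ] ℝ).comp (fderiv ℝ φ x)) x :=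
      (EuclideanSpace.proj i : E (d * d) →L[ℝ] ℝ).hasFDerivAt.comp x h
    rw [h'.fderiv]
    rfl
  have hterm : ∀ x : E d, (∑ i : Fin (d * d), ∑ j : Fin d,
      fA p (Gmap d a x) (i, j) * (fderiv ℝ φ x (unit j)) i) =
      (CU a d) ^ ((p - 2) / 2) * ∑ i : Fin (d * d), ∑ j : Fin d,
        ((‖x‖ ^ 2) ^ b * DU a (finProdFinEquiv.symm i).1 (finProdFinEquiv.symm i).2 j x) *
          fderiv ℝ (fun x => φ x i) x (unit j) := by
    intro x
    rw [Finset.mul_sum]
    refine Finset.sum_congr rfl (fun i _ => ?_)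
    rw [Finset.mul_sum]
    refine Finset.sum_congr rfl (fun j _ => ?_)
    rw [hfd]
    have : fA p (Gmap d a x) (i, j) = ‖Gmap d a x‖ ^ (p - 2) * Gmap d a x (i, j) := by
      unfold fA
      simp
    rw [this, G_norm_rpow h3 d a ha hd, G_apply, hb]
    ring
  simp_rw [hterm]
  rw [integral_const_mul]
  have hzero : ∫ x, ∑ i : Fin (d * d), ∑ j : Fin d,
      ((‖x‖ ^ 2) ^ b * DU a (finProdFinEquiv.symm i).1 (finProdFinEquiv.symm i).2 j x) *
          fderiv ℝ (fun x => φ x i) x (unit j) = 0 := by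
    rw [integral_finsetSum]
    · refine Finset.sum_eq_zero (fun i _ => ?_)
      obtain ⟨F', hF1, hF2, hF3⟩ := h5 d p a b (by omega) ha hb hp1 heq
        (finProdFinEquiv.symm i).1 (finProdFinEquiv.symm i).2
      exact h4 d (fun j x => (‖x‖ ^ 2) ^ b *
        DU a (finProdFinEquiv.symm i).1 (finProdFinEquiv.symm i).2 j x) F' hF1 hF2 hF3
        (fun x => φ x i) (hφi i) (hci i)
    · intro i _
      refine integrable_finsetSum _ (fun j _ => ?_)
      obtain ⟨F', hF1, hF2, hF3⟩ := h5 d p a b (by omega) ha hb hp1 heq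
        (finProdFinEquiv.symm i).1 (finProdFinEquiv.symm i).2
      have hcont : Continuous (fun x => fderiv ℝ (fun x => φ x i) x (unit j)) :=
        ((hφi i).continuous_fderiv (by simp)).clm_apply continuous_const
      refine Continuous.integrable_of_hasCompactSupport ((hF1 j).mul hcont) ?_
      refine HasCompactSupport.mul_left ?_
      have := (hci i).fderiv (𝕜 := ℝ)
      exact this.comp_left (g := fun L : E d →L[ℝ] ℝ => L (unit j)) rfl
  rw [hzero, mul_zero]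

end Pool.Agent.R271.PH.MainAux

namespace Pool.Agent.R271.PH

open MainAux

theorem mainP (h1 : ExpoP) (h2 : DerivP) (h3 : NormP) (h4 : DivP) (h5 : FieldP) (h6 : PartsP)
    (h7 : FailP) : MainP := by
  intro d p hd hp1 hp2
  obtain ⟨a, ha, heq, hβ1, hβ0, hp⟩ := h1 d p hd hp1 hp2
  refine ⟨hmap d a, Gmap d a, h_c1 h2 d a ha, h_fderiv h2 d a ha, ?_, ?_⟩
  · refine ⟨?_, ?_, ?_⟩
    · intro K _ hK
      exact ⟨memLp_of_cont _ (h_c1 h2 d a ha).continuous _ K hK,
        memLp_of_cont _ (G_cont h2 d a ha) _ K hK⟩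
    · intro φ hφ hc _ i j
      rw [Measure.restrict_univ]
      exact h6 d (fun x => hmap d a x i) (fun k x => Gmap d a x (i, k))
        (fun x => hasF h2 d a ha x i) (fun k => (h2 d a ha _ _).2 k) φ hφ hc j
    · intro φ hφ hc _
      rw [Measure.restrict_univ]
      exact weak_eq h2 h3 h4 h5 d a p ha hd hp heq φ hφ hc
  · obtain ⟨hVc, hVn⟩ := V_cont h2 h3 d a p ha hd (by linarith) hβ0
    have hK : 0 < (CU a d) ^ (p / 4) := Real.rpow_pos_of_pos (CU_pos a ha d hd) _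
    refine h7 (d * d) d (fun x => fV p (Gmap d a x)) _ _ (by omega) hK hβ0 hβ1 hVc ?_ hVn
    intro x
    change fV p (Gmap d a (-x)) = -fV p (Gmap d a x)
    rw [G_neg]
    unfold fV
    rw [norm_neg, smul_neg]

end Pool.Agent.R271.PH
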