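import Pool.Agent.R271.PH.Stm

set_option autoImplicit false

/-! PH P3 (helper316): the Frobenius norm of the gradient. -/

open MeasureTheory

namespace Pool.Agent.R271.PH

namespace NormAux

theorem sum_k {d : ℕ} (y : Fin d → ℝ) (s : ℝ) (hs : ∑ k, y k ^ 2 = s) (i j : Fin d)
    (α β γ : ℝ) :
    ∑ k : Fin d, (α * y k + ((if i = k then β else 0) + (if j = k then γ else 0))) ^ 2 =
      α ^ 2 * s + β ^ 2 + γ ^ 2 + 2 * α * β * y i + 2 * α * γ * y j
        + (if i = j then 2 * β * γ else 0) := by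
  have h : ∀ k : Fin d, (α * y k + ((if i = k then β else 0) + (if j = k then γ else 0))) ^ 2 =
      α ^ 2 * y k ^ 2 + (if i = k then β ^ 2 + 2 * α * β * y k + (if j = k then 2 * β * γ else 0)
        else 0) + (if j = k then γ ^ 2 + 2 * α * γ * y k else 0) := by
    intro k
    split_ifs <;> ring
  rw [Finset.sum_congr rfl (fun k _ => h k)]
  rw [Finset.sum_add_distrib, Finset.sum_add_distrib, ← Finset.mul_sum, hs,
    Finset.sum_ite_eq, Finset.sum_ite_eq]
  simp only [Finset.mem_univ, if_true]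
  by_cases hij : i = j
  · subst hij
    simp only [if_true]
    ring
  · have hji : ¬ j = i := fun h => hij h.symm
    simp only [hij, hji, if_false]
    ring

theorem sum_j {d : ℕ} (y : Fin d → ℝ) (s : ℝ) (hs : ∑ k, y k ^ 2 = s) (i : Fin d)
    (c1 c2 c3 c4 c5 : ℝ) :
    ∑ j : Fin d, (c1 * y i ^ 2 * y j ^ 2 + c2 * y j ^ 2 + c3 * y i ^ 2
        + (if i = j then c4 * y i ^ 2 + c5 else 0)) =
      c1 * y i ^ 2 * s + c2 * s + d * (c3 * y i ^ 2) + (c4 * y i ^ 2 + c5) := by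
  rw [Finset.sum_add_distrib, Finset.sum_add_distrib, Finset.sum_add_distrib, ← Finset.mul_sum,
    ← Finset.mul_sum, hs, Finset.sum_const, Finset.sum_ite_eq]
  simp

theorem sum_i {d : ℕ} (y : Fin d → ℝ) (s : ℝ) (hs : ∑ k, y k ^ 2 = s)
    (c1 c2 : ℝ) :
    ∑ i : Fin d, (c1 * y i ^ 2 + c2) = c1 * s + d * c2 := by
  rw [Finset.sum_add_distrib, ← Finset.mul_sum, hs, Finset.sum_const]
  simp

end NormAux

open NormAux

theorem normP : NormP := by
  intro d a ha hd x
  have hd0 : (d : ℝ) ≠ 0 := by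
    have : d ≠ 0 := by omega
    exact_mod_cast this
  by_cases hx : x = 0
  · subst hx
    have h1 : ((‖(0 : E d)‖ : ℝ) ^ 2) ^ (2 * a + 1) = 0 := by
      rw [norm_zero, zero_pow two_ne_zero, Real.zero_rpow (by positivity)]
    rw [h1, mul_zero]
    refine Finset.sum_eq_zero fun i _ => Finset.sum_eq_zero fun j _ =>
      Finset.sum_eq_zero fun k _ => ?_
    simp [DU]
  · have hn : 0 < ‖x‖ := norm_pos_iff.2 hx
    have hs0 : 0 < ‖x‖ ^ 2 := by positivity
    have hsum : ∑ k, x k ^ 2 = ‖x‖ ^ 2 := (EuclideanSpace.real_norm_sq_eq x).symm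
    obtain ⟨s, hs⟩ : ∃ s : ℝ, s = ‖x‖ ^ 2 := ⟨_, rfl⟩
    rw [← hs] at hs0 hsum ⊢
    have ht : s ^ (a - 1) = s ^ a / s := Real.rpow_sub_one hs0.ne' a
    have hfin : s ^ (2 * a + 1) = (s ^ a) ^ 2 * s := by
      rw [Real.rpow_add hs0, Real.rpow_one]
      congr 1
      rw [mul_comm, Real.rpow_mul hs0.le, Real.rpow_two]
    obtain ⟨t, htt⟩ : ∃ t : ℝ, t = s ^ a := ⟨_, rfl⟩
    have hDU : ∀ i j k : Fin d, DU a i j k x =
        (2 * a * (t / s) * x i * x j - (if i = j then (1 / (d : ℝ)) * (2 * (a + 1)) * t else 0))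
          * x k + ((if i = k then t * x j else 0) + (if j = k then t * x i else 0)) := by
      intro i j k
      unfold DU
      rw [← hs, ht, ← htt]
      split_ifs <;> ring
    have h1 : ∀ i j : Fin d, ∑ k : Fin d, (DU a i j k x) ^ 2 =
        ((2 * a * (t / s)) ^ 2 * s + 4 * (2 * a * (t / s)) * t) * x i ^ 2 * x j ^ 2
          + t ^ 2 * x j ^ 2 + t ^ 2 * x i ^ 2
          + (if i = j then (-2 * (2 * a * (t / s)) * ((1 / (d : ℝ)) * (2 * (a + 1)) * t) * s
              - 4 * t * ((1 / (d : ℝ)) * (2 * (a + 1)) * t) + 2 * t ^ 2) * x i ^ 2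
              + ((1 / (d : ℝ)) * (2 * (a + 1)) * t) ^ 2 * s else 0) := by
      intro i j
      rw [Finset.sum_congr rfl (fun k _ => by rw [hDU i j k]), sum_k (fun k => x k) s hsum]
      by_cases hij : i = j
      · subst hij
        simp only [if_true]
        ring
      · simp only [hij, if_false]
        ring
    rw [Finset.sum_congr rfl (fun i _ => Finset.sum_congr rfl (fun j _ => h1 i j))]
    rw [Finset.sum_congr rfl (fun i _ => sum_j (fun k => x k) s hsum i _ _ _ _ _)]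
    have h2 : ∀ i : Fin d,
        ((2 * a * (t / s)) ^ 2 * s + 4 * (2 * a * (t / s)) * t) * x i ^ 2 * s + t ^ 2 * s
          + d * (t ^ 2 * x i ^ 2)
          + ((-2 * (2 * a * (t / s)) * ((1 / (d : ℝ)) * (2 * (a + 1)) * t) * s
              - 4 * t * ((1 / (d : ℝ)) * (2 * (a + 1)) * t) + 2 * t ^ 2) * x i ^ 2
              + ((1 / (d : ℝ)) * (2 * (a + 1)) * t) ^ 2 * s) =
        ((((2 * a * (t / s)) ^ 2 * s + 4 * (2 * a * (t / s)) * t) * s + d * t ^ 2
          + (-2 * (2 * a * (t / s)) * ((1 / (d : ℝ)) * (2 * (a + 1)) * t) * s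
              - 4 * t * ((1 / (d : ℝ)) * (2 * (a + 1)) * t) + 2 * t ^ 2)) * x i ^ 2
          + (t ^ 2 * s + ((1 / (d : ℝ)) * (2 * (a + 1)) * t) ^ 2 * s)) := by
      intro i
      ring
    rw [Finset.sum_congr rfl (fun i _ => h2 i), sum_i (fun k => x k) s hsum, hfin, ← htt]
    unfold CU
    have hs1 : s ≠ 0 := hs0.ne'
    field_simp
    ring

end Pool.Agent.R271.PH
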