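import Pool.Agent.R271.PH.Stm

set_option autoImplicit false

open MeasureTheory

namespace Pool.Agent.R271.PH

theorem partsP : PartsP := by
  intro d u u' hu hu' φ hφ hc j
  have hfd : ∀ x : E d, fderiv ℝ u x (unit j) = u' j x := by
    intro x
    rw [(hu x).fderiv, ContinuousLinearMap.sum_apply]
    rw [Finset.sum_eq_single j]
    · simp [unit]
    · intro k _ hk
      simp [unit, hk]
    · intro h
      exact absurd (Finset.mem_univ j) h
  have hucont : Continuous u := continuous_iff_continuousAt.2 fun x => (hu x).continuousAt
  have hφcont : Continuous φ := hφ.continuous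
  have hφd : Differentiable ℝ φ := hφ.differentiable (by simp)
  have hφ'cont : Continuous fun x : E d => fderiv ℝ φ x (unit j) :=
    (hφ.continuous_fderiv (by simp)).clm_apply continuous_const
  have hφ'c : HasCompactSupport fun x : E d => fderiv ℝ φ x (unit j) := by
    refine (hc.fderiv (𝕜 := ℝ)).mono' ?_
    intro x hx
    apply subset_tsupport
    intro h0
    apply hx
    simp only at h0 ⊢
    rw [h0]
    rfl
  have h1 : Integrable (fun x : E d => fderiv ℝ u x (unit j) * φ x) := by
    simp only [hfd]
    exact ((hu' j).mul hφcont).integrable_of_hasCompactSupport hc.mul_left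
  have h2 : Integrable (fun x : E d => u x * fderiv ℝ φ x (unit j)) :=
    (hucont.mul hφ'cont).integrable_of_hasCompactSupport hφ'c.mul_left
  have h3 : Integrable (fun x : E d => u x * φ x) :=
    (hucont.mul hφcont).integrable_of_hasCompactSupport hc.mul_left
  have h4 := integral_mul_fderiv_eq_neg_fderiv_mul_of_integrable h1 h2 h3
    (fun x _ => (hu x).differentiableAt) (fun x _ => hφd x)
  rw [h4]
  simp only [hfd]

end Pool.Agent.R271.PH
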