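import Pool.Agent.R271.PH.Defs

set_option autoImplicit false

open MeasureTheory

namespace Pool.Agent.R271.PH

/-- `U_ij(x) = |x|^(2a) x_i x_j - (δ_ij / d) |x|^(2a+2)`. -/
noncomputable def U {d : ℕ} (a : ℝ) (i j : Fin d) (x : E d) : ℝ :=
  (‖x‖ ^ 2) ^ a * x i * x j - (if i = j then (1 : ℝ) / d else 0) * (‖x‖ ^ 2) ^ (a + 1)

/-- The partial derivative of `U_ij` in direction `k`. -/
noncomputable def DU {d : ℕ} (a : ℝ) (i j k : Fin d) (x : E d) : ℝ :=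
  2 * a * (‖x‖ ^ 2) ^ (a - 1) * x k * x i * x j
    + (‖x‖ ^ 2) ^ a * ((if i = k then x j else 0) + (if j = k then x i else 0))
    - (if i = j then (1 : ℝ) / d else 0) * (2 * (a + 1)) * (‖x‖ ^ 2) ^ a * x k

/-- the constant with `|∇U|² = CU |x|^(4a+2)` -/
noncomputable def CU (a : ℝ) (d : ℕ) : ℝ := (1 - 1 / (d : ℝ)) * ((2 * a + 2) ^ 2 + 2 * d)

/-- the map `h` -/
noncomputable def hmap (d : ℕ) (a : ℝ) (x : E d) : E (d * d) :=
  WithLp.toLp 2 (fun k : Fin (d * d) =>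
    U a (finProdFinEquiv.symm k).1 (finProdFinEquiv.symm k).2 x)

/-- its gradient -/
noncomputable def Gmap (d : ℕ) (a : ℝ) (x : E d) : Mat (d * d) d :=
  WithLp.toLp 2 (fun q : Fin (d * d) × Fin d =>
    DU a (finProdFinEquiv.symm q.1).1 (finProdFinEquiv.symm q.1).2 q.2 x)

/-- P1. The exponent. -/
def ExpoP : Prop :=
  ∀ (d : ℕ) (p : ℝ), 3 ≤ d → 1 < p → p < 2 →
    ∃ a : ℝ, 0 < a ∧ (2 * a + (2 * a + 1) * (p - 2)) * (a + 1) + a * d = 0 ∧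
      (2 * a + 1) * p / 2 < 1 ∧ 0 < (2 * a + 1) * p / 2 ∧ 0 < (2 * a + 1) * (p - 1)

/-- P2. The derivative of `U` and continuity of `DU`. -/
def DerivP : Prop :=
  ∀ (d : ℕ) (a : ℝ), 0 < a → ∀ (i j : Fin d),
    (∀ x : E d, HasFDerivAt (U a i j)
      (∑ k, DU a i j k x • (EuclideanSpace.proj k : E d →L[ℝ] ℝ)) x) ∧
    ∀ k : Fin d, Continuous (DU a i j k)

/-- P3. The Frobenius norm of the gradient. -/
def NormP : Prop :=
  ∀ (d : ℕ) (a : ℝ), 0 < a → 1 ≤ d → ∀ x : E d,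
    ∑ i : Fin d, ∑ j : Fin d, ∑ k : Fin d, (DU a i j k x) ^ 2
      = CU a d * (‖x‖ ^ 2) ^ (2 * a + 1)

/-- P4. Divergence theorem for fields singular at the origin. -/
def DivP : Prop :=
  ∀ (d : ℕ) (F : Fin d → E d → ℝ) (F' : Fin d → E d → (E d →L[ℝ] ℝ)),
    (∀ k, Continuous (F k)) → (∀ k, ∀ x : E d, x ≠ 0 → HasFDerivAt (F k) (F' k x) x) →
    (∀ x : E d, x ≠ 0 → ∑ k, F' k x (unit k) = 0) →
    ∀ φ : E d → ℝ, ContDiff ℝ (⊤ : ℕ∞) φ → HasCompactSupport φ →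
      ∫ x, ∑ k, F k x * fderiv ℝ φ x (unit k) = 0

/-- P5. The field `|x|^(2b) ∇U_ij` satisfies the hypotheses of `DivP`. -/
def FieldP : Prop :=
  ∀ (d : ℕ) (p a b : ℝ), 1 ≤ d → 0 < a → b = (2 * a + 1) * (p - 2) / 2 →
    0 < (2 * a + 1) * (p - 1) → (2 * a + (2 * a + 1) * (p - 2)) * (a + 1) + a * d = 0 →
    ∀ i j : Fin d, ∃ F' : Fin d → E d → (E d →L[ℝ] ℝ),
      (∀ k, Continuous (fun x : E d => (‖x‖ ^ 2) ^ b * DU a i j k x)) ∧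
      (∀ k, ∀ x : E d, x ≠ 0 →
        HasFDerivAt (fun x : E d => (‖x‖ ^ 2) ^ b * DU a i j k x) (F' k x) x) ∧
      (∀ x : E d, x ≠ 0 → ∑ k, F' k x (unit k) = 0)

/-- P6. Integration by parts for a C¹ function. -/
def PartsP : Prop :=
  ∀ (d : ℕ) (u : E d → ℝ) (u' : Fin d → E d → ℝ),
    (∀ x : E d, HasFDerivAt u (∑ k, u' k x • (EuclideanSpace.proj k : E d →L[ℝ] ℝ)) x) →
    (∀ k, Continuous (u' k)) →
    ∀ φ : E d → ℝ, ContDiff ℝ (⊤ : ℕ∞) φ → HasCompactSupport φ → ∀ j : Fin d,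
      ∫ x, u x * fderiv ℝ φ x (unit j) = -∫ x, u' j x * φ x

/-- P7. Failure of C¹ and of linear decay for odd functions with `|W x| = K |x|^β`. -/
def FailP : Prop :=
  ∀ (n d : ℕ) (W : E d → Mat n d) (K β : ℝ), 1 ≤ d → 0 < K → 0 < β → β < 1 →
    Continuous W → (∀ x, W (-x) = -W x) → (∀ x, ‖W x‖ = K * ‖x‖ ^ β) →
    ¬ HasC1Rep Set.univ W ∧ ¬ LinearDecay Set.univ W

/-- P8. Final statement. -/
def MainP : Prop :=
  ∀ (d : ℕ) (p : ℝ), 3 ≤ d → 1 < p → p < 2 →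
    ∃ (h : E d → E (d * d)) (G : E d → Mat (d * d) d),
      ContDiff ℝ 1 h ∧ (∀ x i j, G x (i, j) = (fderiv ℝ h x (unit j)) i) ∧
      IsPHarmonic p Set.univ h G ∧
      ¬ HasC1Rep Set.univ (fun x => fV p (G x)) ∧
      ¬ LinearDecay Set.univ (fun x => fV p (G x))

end Pool.Agent.R271.PH
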